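import Pool.Agent.H14R3.Aug.Stmts

set_option autoImplicit false

open scoped ENNReal InnerProductSpace

namespace Pool.Agent.Helper923.Aug

open Pool.Agent.H14R3.Aug

theorem continuous_eval' {n : ℕ} (g : G n) : Continuous fun d : H (G n) => d g :=
  (lp.evalCLM ℂ (fun _ : G n => ℂ) 2 g).continuous

theorem continuous_Pot {n : ℕ} (g : G n) : Continuous fun d : H (G n) => Pot d g := by
  unfold Pot
  generalize g.toWord.tails = L
  induction L with
  | nil => simpa using continuous_const
  | cons a L ih =>
    simp only [List.map_cons, List.sum_cons]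
    exact (continuous_eval' _).add ih

theorem continuous_eqn {n k : ℕ} (x : Fin k → G n → ℂ) (S : Finset (G n)) (i : Fin k) (h : G n) :
    Continuous fun d : H (G n) => eqn x S i h d := by
  unfold eqn
  exact continuous_finsetSum _ fun u _ => continuous_const.mul (continuous_Pot _)

theorem Kglob_closed {n k : ℕ} (x : Fin k → G n → ℂ) (S : Finset (G n)) (N : ℕ) :
    IsClosed (Kglob x S N : Set (H (G n))) := by
  have h : (Kglob x S N : Set (H (G n))) = {d : H (G n) | d 1 = 0} ∩
      (⋂ i, ⋂ h, {d : H (G n) | eqn x S i h d = 0}) ∩ (⋂ g, ⋂ (_ : len g ≤ N), {d : H (G n) | d g = 0}) := by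
    ext d
    simp only [Set.mem_inter_iff, Set.mem_iInter, Set.mem_ofPred_eq]
    rfl
  rw [h]
  refine IsClosed.inter (IsClosed.inter ?_ ?_) ?_
  · exact isClosed_eq (continuous_eval' _) continuous_const
  · exact isClosed_iInter fun i => isClosed_iInter fun h =>
      isClosed_eq (continuous_eqn x S i h) continuous_const
  · exact isClosed_iInter fun g => isClosed_iInter fun _ =>
      isClosed_eq (continuous_eval' _) continuous_const

theorem Exist_proof : Exist := by
  intro n k x S d0 hd0 g0
  have : CompleteSpace (Kglob x S (len g0)) := (Kglob_closed x S (len g0)).completeSpace_coe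
  set K := Kglob x S (len g0) with hK
  have hmem : K.starProjection d0 ∈ K := Submodule.starProjection_apply_mem K d0
  have hS : K.starProjection d0 ∈ Sglob x S := hmem.1
  refine ⟨d0 - K.starProjection d0, Submodule.sub_mem _ hd0 hS,
    Submodule.sub_starProjection_mem_orthogonal d0, ?_⟩
  have h0 : (K.starProjection d0) g0 = 0 := hmem.2 g0 le_rfl
  rw [lp.coeFn_sub, Pi.sub_apply, h0, sub_zero]

theorem exist_proof : Exist := Exist_proof

end Pool.Agent.Helper923.Aug
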